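import Pool.Agent.helper25.TW.Spec2

/-! Row TCP of project TWO part 2 (helper25), proved by helper42. -/

set_option autoImplicit false

namespace TP.TW

open DP MeasureTheory Finset

private theorem TCP_P1 : IsProbabilityMeasure P1 := by
  unfold P1
  infer_instance

private theorem TCP_le_one (F : Set (V → Bool)) : Pr F ≤ 1 := by
  haveI := TCP_P1
  unfold Pr
  exact measureReal_le_one

private theorem TCP_mono {F G : Set (V → Bool)} (h : F ⊆ G) : Pr F ≤ Pr G := by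
  haveI := TCP_P1
  unfold Pr
  exact measureReal_mono h (measure_ne_top _ _)

theorem TCP (arm : ARM_stmt) (prd : PRD_stmt) : TCP_stmt := by
  obtain ⟨R, hR, H⟩ := prd
  refine ⟨R, hR, fun k S i h hlow t ht => ?_⟩
  have htpos : (0 : ℝ) < (t : ℝ) := by exact_mod_cast (by omega : 0 < t)
  by_cases ht2 : t < 2 ^ (h + 1)
  · refine le_trans (TCP_le_one _) ?_
    have h1 : (1 : ℝ) ≤ 16 * 2 ^ h / (t : ℝ) := by
      rw [le_div_iff₀ htpos]
      have h2 : (t : ℝ) ≤ 2 ^ (h + 1) := by exact_mod_cast ht2.le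
      have h3 : (0 : ℝ) < 2 ^ h := by positivity
      rw [pow_succ] at h2
      linarith
    exact one_le_pow₀ h1
  · have ht3 : 2 ^ (h + 1) ≤ t := not_lt.1 ht2
    have hq : t / 2 ^ (h + 1) ≠ 0 := by
      have : 0 < t / 2 ^ (h + 1) := Nat.div_pos ht3 (by positivity)
      omega
    obtain ⟨J, hJ1, hJ2⟩ : ∃ J : ℕ, 2 ^ (h + 1) * 8 ^ J ≤ t ∧ t < 2 ^ (h + 1) * 8 ^ (J + 1) := by
      refine ⟨Nat.log 8 (t / 2 ^ (h + 1)), ?_, ?_⟩
      · have h1 : 8 ^ Nat.log 8 (t / 2 ^ (h + 1)) ≤ t / 2 ^ (h + 1) := Nat.pow_log_le_self 8 hq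
        have h2 := Nat.mul_le_mul_left (2 ^ (h + 1)) h1
        exact le_trans h2 (Nat.mul_div_le t _)
      · have h1 : t / 2 ^ (h + 1) < 8 ^ (Nat.log 8 (t / 2 ^ (h + 1)) + 1) := Nat.lt_pow_succ_log_self (by norm_num) _
        have h2 := (Nat.div_lt_iff_lt_mul (by positivity : 0 < 2 ^ (h + 1))).1 h1
        rw [mul_comm]
        exact h2
    have hsub : (Ev fun c => TCH c k S i h t) ⊆ (Ev fun c => ∀ j < J, SRA c k S i (2 ^ (h + 2) * 8 ^ j)) := by
      intro b hb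
      exact arm _ k S i h t J hJ1 hb
    refine le_trans (TCP_mono hsub) (le_trans (H k S i h hlow J) ?_)
    have h8 : (0 : ℝ) < 8 ^ J := by positivity
    have h5 : ((1 : ℝ) / 512) ^ J = ((1 / 8) ^ J) ^ 3 := by
      rw [← pow_mul, mul_comm J 3, pow_mul]
      norm_num
    rw [h5]
    refine pow_le_pow_left₀ (by positivity) ?_ 3
    rw [le_div_iff₀ htpos, one_div, inv_pow, inv_mul_le_iff₀ h8]
    have h6 : (t : ℝ) ≤ 2 ^ (h + 1) * 8 ^ (J + 1) := by exact_mod_cast hJ2.le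
    rw [pow_succ, pow_succ] at h6
    linarith

end TP.TW
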